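import Pool.Agent.Lib.FQ.Main2

set_option autoImplicit false

open scoped Topology
open Metric MeasureTheory Pool.Agent.Lib.MP_ec86f1_an

namespace Pool.Agent.Results.MP_ec86f1_an.NoRadialLimits

theorem result : ∀ n : ℕ, 3 ≤ n →
    ∃ f : EuclideanSpace ℝ (Fin n) → EuclideanSpace ℝ (Fin n),
      IsQuasiregularOn volume n (ball 0 1) f ∧ Bornology.IsBounded (f '' ball 0 1) ∧
      (∀ x ∈ ball (0 : EuclideanSpace ℝ (Fin n)) 1, ∃ U ∈ 𝓝 x, Set.InjOn f U) ∧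
      HasNaturalBoundary f ∧
      ∃ c : ℝ, 0 < c ∧ ∀ᵐ (ξ : sphere (0 : EuclideanSpace ℝ (Fin n)) 1)
        ∂(volume : Measure (EuclideanSpace ℝ (Fin n))).toSphere, ∀ ρ : ℝ, ρ < 1 →
          ∃ s₁ ∈ Set.Ioo ρ 1, ∃ s₂ ∈ Set.Ioo ρ 1,
            c ≤ ‖f (s₁ • (ξ : EuclideanSpace ℝ (Fin n))) -
              f (s₂ • (ξ : EuclideanSpace ℝ (Fin n)))‖ :=
  Pool.Agent.Lib.FQ.main2

end Pool.Agent.Results.MP_ec86f1_an.NoRadialLimits
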